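import Pool.Agent.Lib.MP_abcfcd_nt.T.Defs

/-!
# The Jordan types of the two nilpotent elements, and the partitions above them

PROOF. `HasType p X`: the ranks of the powers `X^k` are `7, 4, 3, 2, 1, 0, 0, ...` for `(5,1,1)` and
`7, 5, 3, 1, 0, 0, ...` for `(4,3)`. `X = c √-7 M` with a rational matrix `M` and `c √-7` a unit of
the
field `E7 ℚ`, so the rank of `X^k` over `E7 ℚ` is the rank of the explicit matrix `M^k` (over `E7
ℚ`).
Ranks: give explicitly an invertible matrix `S` (with its inverse) and `N = S⁻¹ M S` = the matrix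
which
maps the vectors of the standard basis to other ones along the strings
(`e1 → e2 → e3 → e4 → e5 → 0`, `e6, e7 → 0`, respectively two strings of lengths 4 and 3); powers
of `N`
are explicit `0-1` matrices (diagonal matrices up to permutation of the columns), whose rank is the
number of ones; `Matrix.rank_mul_eq_left_of_isUnit_det` and so on. Alternatively: the rank is at
least
`r` by `r` explicit linearly independent columns (a nonzero minor, `Matrix.rank_submatrix_le`) and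
at
most `r` since `M^k` factors through dimension `r` (`M^k = A * B`, `Matrix.rank_mul_le`,
`Matrix.rank_le_card_width`). For `k ≥ 5` (or `4`) the power is zero.
`above`: `decide` over the fifteen partitions of `7` (`Nat.Partition 7` is a `Fintype`; `Dom` can be
restricted to `k ≤ 7`), or: a partition `p'` with `Dom p' p` has largest part at least `5` (resp.
`4`),
etc. The partitions `p511`, `p43` are given as members of `Nat.Partition 7`.
-/

set_option autoImplicit false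

open Matrix MeasureTheory Topology
open scoped ENNReal NNReal ComplexConjugate RestrictedProduct

namespace Pool.Agent.MPabcfcd

/-- The partition `(5,1,1)`. -/
def p511 : Nat.Partition 7 := ⟨{5, 1, 1}, by intro i hi; simp at hi; omega, by decide⟩

/-- The partition `(4,3)`. -/
def p43 : Nat.Partition 7 := ⟨{4, 3}, by intro i hi; simp at hi; omega, by decide⟩

private theorem rk_aux {r : ℕ} (A : Matrix (Fin 7) (Fin 7) ℤ) (P : Matrix (Fin 7) (Fin r) ℤ)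
    (Q : Matrix (Fin r) (Fin 7) ℤ) (P' : Matrix (Fin r) (Fin 7) ℤ) (Q' : Matrix (Fin 7) (Fin r) ℤ)
    (d : ℤ) (hd : d ≠ 0) (h1 : A = P * Q) (h2 : P' * A * Q' = d • (1 : Matrix (Fin r) (Fin r) ℤ))
    (u v : E7 ℚ) (huv : u * v = 1) :
    (u • A.map (Int.castRingHom (E7 ℚ))).rank = r := by
  have hmap : A.map (Int.castRingHom (E7 ℚ))
      = P.map (Int.castRingHom (E7 ℚ)) * Q.map (Int.castRingHom (E7 ℚ)) := by
    rw [h1, Matrix.map_mul]
  have hmap2 : P'.map (Int.castRingHom (E7 ℚ)) * A.map (Int.castRingHom (E7 ℚ))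
      * Q'.map (Int.castRingHom (E7 ℚ)) = (d : E7 ℚ) • (1 : Matrix (Fin r) (Fin r) (E7 ℚ)) := by
    rw [← Matrix.map_mul, ← Matrix.map_mul, h2]
    apply Matrix.ext
    intro i j
    rw [Matrix.map_apply, Matrix.smul_apply, Matrix.smul_apply]
    by_cases hij : i = j
    · subst hij; rw [Matrix.one_apply_eq, Matrix.one_apply_eq]; simp
    · rw [Matrix.one_apply_ne hij, Matrix.one_apply_ne hij]; simp
  have hdu : (d : E7 ℚ) * algebraMap ℚ (E7 ℚ) ((d : ℚ)⁻¹) = 1 := by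
    have h3 : (d : E7 ℚ) = algebraMap ℚ (E7 ℚ) (d : ℚ) := by simp
    rw [h3, ← map_mul, mul_inv_cancel₀ (by exact_mod_cast hd), map_one]
  apply le_antisymm
  · rw [hmap, ← Matrix.smul_mul]
    refine (Matrix.rank_mul_le_left _ _).trans ?_
    refine (Matrix.rank_le_card_width _).trans ?_
    simp
  · have h4 : (P'.map (Int.castRingHom (E7 ℚ))) * (u • A.map (Int.castRingHom (E7 ℚ)))
        * ((v * algebraMap ℚ (E7 ℚ) ((d : ℚ)⁻¹)) • Q'.map (Int.castRingHom (E7 ℚ)))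
        = (1 : Matrix (Fin r) (Fin r) (E7 ℚ)) := by
      rw [Matrix.mul_smul, Matrix.mul_smul, Matrix.smul_mul, hmap2, smul_smul, smul_smul]
      have h5 : v * algebraMap ℚ (E7 ℚ) ((d : ℚ)⁻¹) * (u * (d : E7 ℚ)) = 1 := by
        have : v * algebraMap ℚ (E7 ℚ) ((d : ℚ)⁻¹) * (u * (d : E7 ℚ))
          = (u * v) * ((d : E7 ℚ) * algebraMap ℚ (E7 ℚ) ((d : ℚ)⁻¹)) := by ring
        rw [this, huv, hdu, one_mul]
      have h6 : v * algebraMap ℚ (E7 ℚ) ((d : ℚ)⁻¹) * u * (d : E7 ℚ) = 1 := by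
        rw [← h5]; ring
      rw [h6, one_smul]
    have h7 : (1 : Matrix (Fin r) (Fin r) (E7 ℚ)).rank = r := by
      rw [Matrix.rank_one, Fintype.card_fin]
    calc r = (1 : Matrix (Fin r) (Fin r) (E7 ℚ)).rank := h7.symm
      _ ≤ ((P'.map (Int.castRingHom (E7 ℚ))) * (u • A.map (Int.castRingHom (E7 ℚ)))).rank := by
          rw [← h4]; exact Matrix.rank_mul_le_left _ _
      _ ≤ _ := Matrix.rank_mul_le_right _ _

private def N1 : Matrix (Fin 7) (Fin 7) ℤ :=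
  !![0, 0, 0, 0, 0, 0, 0;
     2, 0, 0, 0, 0, 0, 0;
     0, 6, 0, 0, 0, 0, 0;
     0, 2, 0, 0, 0, 0, 0;
     0, 4, 0, 0, 0, 0, 0;
     0, 0, 4, 2, 6, 0, 0;
     0, 0, 0, 0, 0, 2, 0]

private def N2 : Matrix (Fin 7) (Fin 7) ℤ :=
  !![0, 0, 6, 0, 0, 0, 0;
     0, 0, 0, 5, 0, 0, 0;
     0, 0, 0, 0, 3, 0, 0;
     0, 0, 0, 0, 0, 5, 0;
     0, 0, 0, 0, 0, 0, 6;
     0, 0, 0, 0, 0, 0, 0;
     0, 0, 0, 0, 0, 0, 0]

/-- `√-7 / 49`. -/
private def cu : E7 ℚ := ⟨0, 1 / 49⟩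

/-- The inverse of `√-7 / 49`. -/
private def cv : E7 ℚ := ⟨0, -7⟩

private theorem cu_cv : cu * cv = 1 := by
  ext
  · simp [cu, cv, QuadraticAlgebra.re_mul]
    change (7 : ℚ) * 49⁻¹ * 7 = 1
    norm_num
  · simp [cu, cv, QuadraticAlgebra.im_mul]
    rfl

private theorem im_map (A : Matrix (Fin 7) (Fin 7) ℚ) (B : Matrix (Fin 7) (Fin 7) ℤ)
    (h : A = B.map (Int.castRingHom ℚ)) :
    imM (1 / 49) A = cu • B.map (Int.castRingHom (E7 ℚ)) := by
  subst h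
  ext i j
  · simp [imM, cu, QuadraticAlgebra.re_mul]
  · simp [imM, cu, QuadraticAlgebra.im_mul]

private theorem im_pow (B : Matrix (Fin 7) (Fin 7) ℤ) (k : ℕ) :
    (cu • B.map (Int.castRingHom (E7 ℚ))) ^ k
      = cu ^ k • (B ^ k).map (Int.castRingHom (E7 ℚ)) := by
  rw [smul_pow]
  congr 1
  have := map_pow (RingHom.mapMatrix (Int.castRingHom (E7 ℚ))) B k
  simpa [RingHom.mapMatrix_apply] using this.symm

private theorem cu_cv_pow (k : ℕ) : cu ^ k * cv ^ k = 1 := by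
  rw [← mul_pow, cu_cv, one_pow]

private theorem Mq1_eq : Mq1 = N1.map (Int.castRingHom ℚ) := by
  ext i j
  fin_cases i <;> fin_cases j <;> simp [Mq1, N1]

private theorem Mq2_eq : Mq2 = N2.map (Int.castRingHom ℚ) := by
  ext i j
  fin_cases i <;> fin_cases j <;> simp [Mq2, N2]

private theorem N1_2 : N1 ^ 2 = !![0, 0, 0, 0, 0, 0, 0;
     0, 0, 0, 0, 0, 0, 0;
     12, 0, 0, 0, 0, 0, 0;
     4, 0, 0, 0, 0, 0, 0;
     8, 0, 0, 0, 0, 0, 0;
     0, 52, 0, 0, 0, 0, 0;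
     0, 0, 8, 4, 12, 0, 0] := by
  rw [pow_two]; decide

private theorem N1_3 : N1 ^ 3 = !![0, 0, 0, 0, 0, 0, 0;
     0, 0, 0, 0, 0, 0, 0;
     0, 0, 0, 0, 0, 0, 0;
     0, 0, 0, 0, 0, 0, 0;
     0, 0, 0, 0, 0, 0, 0;
     104, 0, 0, 0, 0, 0, 0;
     0, 104, 0, 0, 0, 0, 0] := by
  rw [pow_succ, N1_2]; decide

private theorem N1_4 : N1 ^ 4 = !![0, 0, 0, 0, 0, 0, 0;
     0, 0, 0, 0, 0, 0, 0;
     0, 0, 0, 0, 0, 0, 0;
     0, 0, 0, 0, 0, 0, 0;
     0, 0, 0, 0, 0, 0, 0;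
     0, 0, 0, 0, 0, 0, 0;
     208, 0, 0, 0, 0, 0, 0] := by
  rw [pow_succ, N1_3]; decide

private theorem N1_5 : N1 ^ 5 = 0 := by
  rw [pow_succ, N1_4]; decide

private theorem N2_2 : N2 ^ 2 = !![0, 0, 0, 0, 18, 0, 0;
     0, 0, 0, 0, 0, 25, 0;
     0, 0, 0, 0, 0, 0, 18;
     0, 0, 0, 0, 0, 0, 0;
     0, 0, 0, 0, 0, 0, 0;
     0, 0, 0, 0, 0, 0, 0;
     0, 0, 0, 0, 0, 0, 0] := by
  rw [pow_two]; decide

private theorem N2_3 : N2 ^ 3 = !![0, 0, 0, 0, 0, 0, 108;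
     0, 0, 0, 0, 0, 0, 0;
     0, 0, 0, 0, 0, 0, 0;
     0, 0, 0, 0, 0, 0, 0;
     0, 0, 0, 0, 0, 0, 0;
     0, 0, 0, 0, 0, 0, 0;
     0, 0, 0, 0, 0, 0, 0] := by
  rw [pow_succ, N2_2]; decide

private theorem N2_4 : N2 ^ 4 = 0 := by
  rw [pow_succ, N2_3]; decide

private theorem rank_N1 (k : ℕ) (u v : E7 ℚ) (huv : u * v = 1) :
    (u • (N1 ^ k).map (Int.castRingHom (E7 ℚ))).rank
      = (({5, 1, 1} : Multiset ℕ).map fun i => i - k).sum := by
  match k with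
  | 0 =>
    refine (rk_aux (r := 7) _ 1 1 1 1 1 one_ne_zero ?_ ?_ u v huv).trans ?_
    · simp
    · simp
    · rfl
  | 1 =>
    refine (rk_aux (r := 4) _
      !![0, 0, 0, 0; 1, 0, 0, 0; 0, 6, 0, 0; 0, 2, 0, 0; 0, 4, 0, 0; 0, 0, 1, 0; 0, 0, 0, 1]
      !![2, 0, 0, 0, 0, 0, 0; 0, 1, 0, 0, 0, 0, 0; 0, 0, 4, 2, 6, 0, 0; 0, 0, 0, 0, 0, 2, 0]
      !![0, 6, 0, 0, 0, 0, 0; 0, 0, 2, 0, 0, 0, 0; 0, 0, 0, 0, 0, 3, 0; 0, 0, 0, 0, 0, 0, 6]
      !![1, 0, 0, 0; 0, 1, 0, 0; 0, 0, 1, 0; 0, 0, 0, 0; 0, 0, 0, 0; 0, 0, 0, 1; 0, 0, 0, 0]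
      12 (by norm_num) ?_ ?_ u v huv).trans ?_
    · rw [pow_one]; decide
    · rw [pow_one]; decide
    · rfl
  | 2 =>
    refine (rk_aux (r := 3) _
      !![0, 0, 0; 0, 0, 0; 6, 0, 0; 2, 0, 0; 4, 0, 0; 0, 1, 0; 0, 0, 1]
      !![2, 0, 0, 0, 0, 0, 0; 0, 52, 0, 0, 0, 0, 0; 0, 0, 8, 4, 12, 0, 0]
      !![0, 0, 26, 0, 0, 0, 0; 0, 0, 0, 0, 0, 6, 0; 0, 0, 0, 0, 0, 0, 39]
      !![1, 0, 0; 0, 1, 0; 0, 0, 1; 0, 0, 0; 0, 0, 0; 0, 0, 0; 0, 0, 0]
      312 (by norm_num) ?_ ?_ u v huv).trans ?_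
    · rw [N1_2]; decide
    · rw [N1_2]; decide
    · rfl
  | 3 =>
    refine (rk_aux (r := 2) _
      !![0, 0; 0, 0; 0, 0; 0, 0; 0, 0; 1, 0; 0, 1]
      !![104, 0, 0, 0, 0, 0, 0; 0, 104, 0, 0, 0, 0, 0]
      !![0, 0, 0, 0, 0, 1, 0; 0, 0, 0, 0, 0, 0, 1]
      !![1, 0; 0, 1; 0, 0; 0, 0; 0, 0; 0, 0; 0, 0]
      104 (by norm_num) ?_ ?_ u v huv).trans ?_
    · rw [N1_3]; decide
    · rw [N1_3]; decide
    · rfl
  | 4 =>
    refine (rk_aux (r := 1) _
      !![0; 0; 0; 0; 0; 0; 1]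
      !![208, 0, 0, 0, 0, 0, 0]
      !![0, 0, 0, 0, 0, 0, 1]
      !![1; 0; 0; 0; 0; 0; 0]
      208 (by norm_num) ?_ ?_ u v huv).trans ?_
    · rw [N1_4]; decide
    · rw [N1_4]; decide
    · rfl
  | (m + 5) =>
    have h0 : N1 ^ (m + 5) = 0 := by rw [pow_add, N1_5, mul_zero]
    rw [h0]
    have h1 : (({5, 1, 1} : Multiset ℕ).map fun i => i - (m + 5)).sum = 0 := by
      simp
    rw [h1]
    have h2 : (0 : Matrix (Fin 7) (Fin 7) ℤ).map (Int.castRingHom (E7 ℚ)) = 0 := by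
      ext i j <;> simp
    rw [h2, smul_zero, Matrix.rank_zero]

private theorem rank_N2 (k : ℕ) (u v : E7 ℚ) (huv : u * v = 1) :
    (u • (N2 ^ k).map (Int.castRingHom (E7 ℚ))).rank
      = (({4, 3} : Multiset ℕ).map fun i => i - k).sum := by
  match k with
  | 0 =>
    refine (rk_aux (r := 7) _ 1 1 1 1 1 one_ne_zero ?_ ?_ u v huv).trans ?_
    · simp
    · simp
    · rfl
  | 1 =>
    refine (rk_aux (r := 5) _
      !![1, 0, 0, 0, 0; 0, 1, 0, 0, 0; 0, 0, 1, 0, 0; 0, 0, 0, 1, 0; 0, 0, 0, 0, 1;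
         0, 0, 0, 0, 0; 0, 0, 0, 0, 0]
      !![0, 0, 6, 0, 0, 0, 0; 0, 0, 0, 5, 0, 0, 0; 0, 0, 0, 0, 3, 0, 0; 0, 0, 0, 0, 0, 5, 0;
         0, 0, 0, 0, 0, 0, 6]
      !![5, 0, 0, 0, 0, 0, 0; 0, 6, 0, 0, 0, 0, 0; 0, 0, 10, 0, 0, 0, 0; 0, 0, 0, 6, 0, 0, 0;
         0, 0, 0, 0, 5, 0, 0]
      !![0, 0, 0, 0, 0; 0, 0, 0, 0, 0; 1, 0, 0, 0, 0; 0, 1, 0, 0, 0; 0, 0, 1, 0, 0;
         0, 0, 0, 1, 0; 0, 0, 0, 0, 1]
      30 (by norm_num) ?_ ?_ u v huv).trans ?_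
    · rw [pow_one]; decide
    · rw [pow_one]; decide
    · rfl
  | 2 =>
    refine (rk_aux (r := 3) _
      !![1, 0, 0; 0, 1, 0; 0, 0, 1; 0, 0, 0; 0, 0, 0; 0, 0, 0; 0, 0, 0]
      !![0, 0, 0, 0, 18, 0, 0; 0, 0, 0, 0, 0, 25, 0; 0, 0, 0, 0, 0, 0, 18]
      !![25, 0, 0, 0, 0, 0, 0; 0, 18, 0, 0, 0, 0, 0; 0, 0, 25, 0, 0, 0, 0]
      !![0, 0, 0; 0, 0, 0; 0, 0, 0; 0, 0, 0; 1, 0, 0; 0, 1, 0; 0, 0, 1]
      450 (by norm_num) ?_ ?_ u v huv).trans ?_
    · rw [N2_2]; decide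
    · rw [N2_2]; decide
    · rfl
  | 3 =>
    refine (rk_aux (r := 1) _
      !![1; 0; 0; 0; 0; 0; 0]
      !![0, 0, 0, 0, 0, 0, 108]
      !![1, 0, 0, 0, 0, 0, 0]
      !![0; 0; 0; 0; 0; 0; 1]
      108 (by norm_num) ?_ ?_ u v huv).trans ?_
    · rw [N2_3]; decide
    · rw [N2_3]; decide
    · rfl
  | (m + 4) =>
    have h0 : N2 ^ (m + 4) = 0 := by rw [pow_add, N2_4, mul_zero]
    rw [h0]
    have h1 : (({4, 3} : Multiset ℕ).map fun i => i - (m + 4)).sum = 0 := by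
      simp
    rw [h1]
    have h2 : (0 : Matrix (Fin 7) (Fin 7) ℤ).map (Int.castRingHom (E7 ℚ)) = 0 := by
      ext i j <;> simp
    rw [h2, smul_zero, Matrix.rank_zero]

theorem type_t1 : HasType p511 t1.X := by
  intro k
  have h1 : t1.X = cu • N1.map (Int.castRingHom (E7 ℚ)) := im_map _ _ Mq1_eq
  rw [h1, im_pow]
  exact rank_N1 k _ _ (cu_cv_pow k)

theorem type_t2 : HasType p43 t2.X := by
  intro k
  have h1 : t2.X = cu • N2.map (Int.castRingHom (E7 ℚ)) := im_map _ _ Mq2_eq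
  rw [h1, im_pow]
  exact rank_N2 k _ _ (cu_cv_pow k)

private theorem srt (s : Multiset ℕ) : ((s.sort (· ≥ ·) : List ℕ) : Multiset ℕ) = s :=
  Multiset.sort_eq s _

private theorem srt511 : ({5, 1, 1} : Multiset ℕ).sort (· ≥ ·) = [5, 1, 1] := by
  refine List.Perm.eq_of_pairwise' (r := (· ≥ ·)) (Multiset.pairwise_sort _ _) (by simp) ?_
  exact Multiset.coe_eq_coe.mp (srt _)

private theorem srt43 : ({4, 3} : Multiset ℕ).sort (· ≥ ·) = [4, 3] := by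
  refine List.Perm.eq_of_pairwise' (r := (· ≥ ·)) (Multiset.pairwise_sort _ _) (by simp) ?_
  exact Multiset.coe_eq_coe.mp (srt _)

private theorem lst : ∀ l : List ℕ, (∀ x ∈ l, 0 < x) → l.Pairwise (· ≥ ·) → l.sum = 7 →
    ((5 ≤ (l.take 1).sum ∧ l ≠ [5, 1, 1]) ∨
      (4 ≤ (l.take 1).sum ∧ 7 ≤ (l.take 2).sum ∧ l ≠ [4, 3])) →
    l = [7] ∨ l = [6, 1] ∨ l = [5, 2] := by
  intro l hpos hs hsum h
  match l, hpos, hs, hsum, h with
  | [], _, _, hsum, _ => simp at hsum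
  | [a], _, _, hsum, _ => left; simpa using hsum
  | [a, b], hpos, hs, hsum, h =>
    have ha := hpos a (by simp)
    have hb := hpos b (by simp)
    simp at hsum h hs ⊢
    omega
  | [a, b, c], hpos, hs, hsum, h =>
    have ha := hpos a (by simp)
    have hb := hpos b (by simp)
    have hc := hpos c (by simp)
    simp at hsum h hs ⊢
    omega
  | a :: b :: c :: d :: l', hpos, hs, hsum, h =>
    have ha := hpos a (by simp)
    have hb := hpos b (by simp)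
    have hc := hpos c (by simp)
    have hd := hpos d (by simp)
    simp at hsum h hs ⊢
    omega

theorem above {p : Nat.Partition 7} (h : (Dom p p511 ∧ p ≠ p511) ∨ (Dom p p43 ∧ p ≠ p43)) :
    p.parts = {7} ∨ p.parts = {6, 1} ∨ p.parts = {5, 2} := by
  have hsrt := srt p.parts
  have hpos : ∀ x ∈ p.parts.sort (· ≥ ·), 0 < x := by
    intro x hx
    exact p.parts_pos ((Multiset.mem_sort _).mp hx)
  have hpw : (p.parts.sort (· ≥ ·)).Pairwise (· ≥ ·) := Multiset.pairwise_sort _ _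
  have hsum : (p.parts.sort (· ≥ ·)).sum = 7 := by
    have := p.parts_sum
    rw [← hsrt, Multiset.sum_coe] at this
    exact this
  have key := lst _ hpos hpw hsum ?_
  · rcases key with h | h | h
    · left; rw [← hsrt, h]; rfl
    · right; left; rw [← hsrt, h]; rfl
    · right; right; rw [← hsrt, h]; rfl
  · rcases h with ⟨hd, hne⟩ | ⟨hd, hne⟩
    · left
      refine ⟨?_, ?_⟩
      · have := hd 1
        rw [show p511.parts.sort (· ≥ ·) = [5, 1, 1] from srt511] at this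
        simpa using this
      · intro h
        apply hne
        apply Nat.Partition.ext
        rw [← hsrt, h]; rfl
    · right
      refine ⟨?_, ?_, ?_⟩
      · have := hd 1
        rw [show p43.parts.sort (· ≥ ·) = [4, 3] from srt43] at this
        simpa using this
      · have := hd 2
        rw [show p43.parts.sort (· ≥ ·) = [4, 3] from srt43] at this
        simpa using this
      · intro h
        apply hne
        apply Nat.Partition.ext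
        rw [← hsrt, h]; rfl

theorem p511_ne_p43 : p511 ≠ p43 := by
  intro h
  have h1 : p511.parts = p43.parts := by rw [h]
  revert h1
  decide

end Pool.Agent.MPabcfcd
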