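import Pool.Agent.Lib.MP_abcfcd_nt.T.Defs
import Pool.Agent.Lib.MP_abcfcd_nt.N.Gr

/-!
# The unipotent groups of the two triples, and the compatibility with `B`

PROOF. `mem_V1`, `mem_V2`: `mem_fil_diag` (the image of `dgM a` over `R` is the diagonal matrix of
`a`).
`compat1`: write `u - 1 = P + Q √-7`. `X = (√-7/49) M`, so `X (u - 1) = (√-7/49) M P - (1/7) M Q`
and the
real part of the trace is `-(1/7) tr (M Q)`. By `mem_V1` `Q j i = 0` unless `a j - a i ≥ 2`, and `B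
i j = 0`
if `a i - a j < -2`, `B i j = M i j` if `a i - a j = -2` (finite checks), so
`tr (B Q) = ∑ B i j Q j i = tr (M Q)`; the imaginary part of `u` is that of `u - 1`. The same for
`compat2`. `int_X`: for a prime `p ≠ 7`: the entries of `X` are `⟨0, m / 49⟩` with integers `m`,
`‖1/49‖ ≤ 1` at `p`, and the norm is ultrametric.
-/

set_option autoImplicit false

open Matrix MeasureTheory Topology
open scoped ENNReal NNReal ComplexConjugate RestrictedProduct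

namespace Pool.Agent.MPabcfcd

variable {R : Type} [CommRing R]

private theorem mapM_dgM (f : ℚ →+* R) (a : Fin 7 → ℤ) :
    mapM f (dgM a) = Matrix.diagonal fun i => ((a i : ℤ) : E7 R) := by
  refine Matrix.ext fun i j => ?_
  show E7.map f (dgM a i j) = _
  by_cases h : i = j
  · subst h
    rw [dgM, Matrix.diagonal_apply_eq, Matrix.diagonal_apply_eq, map_intCast]
  · rw [dgM, Matrix.diagonal_apply_ne _ h, Matrix.diagonal_apply_ne _ h, map_zero]

private theorem uni_congr (H H' : M7 (E7 R)) (hH : Sk H) (e : H = H') (v : U7 R) :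
    v ∈ uni H hH ↔ v.mat - 1 ∈ fil H' 2 := by
  subst e
  exact Iff.rfl

private theorem re_sum' (g : Fin 7 → E7 R) : (∑ i, g i).re = ∑ i, (g i).re :=
  map_sum (QuadraticAlgebra.reₗ (R := R) (a := -7) (b := 0)) g Finset.univ

/-- The real part of the trace of `X T` for `X = √-7 c M`. -/
private theorem re_trace (f : ℚ →+* R) (c : ℚ) (M : Matrix (Fin 7) (Fin 7) ℚ) (T : M7 (E7 R)) :
    (Matrix.trace (mapM f (imM c M) * T)).re = ∑ i, ∑ j, -7 * (f (c * M i j) * (T j i).im) := by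
  rw [Matrix.trace, re_sum']
  refine Finset.sum_congr rfl fun i _ => ?_
  rw [Matrix.diag_apply, Matrix.mul_apply, re_sum']
  refine Finset.sum_congr rfl fun j _ => ?_
  rw [QuadraticAlgebra.re_mul]
  show f 0 * _ + -7 * f (c * M i j) * _ = _
  rw [map_zero]
  ring

theorem mem_V1 (f : ℚ →+* R) (v : U7 R) : v ∈ uni (mapM f t1.h) (t1.sk_h.map f) ↔
    ∀ i j, a1 i - a1 j < 2 → (v.mat - 1) i j = 0 := by
  exact (uni_congr _ _ _ (mapM_dgM f a1) v).trans (mem_fil_diag f a1 2 _)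

theorem mem_V2 (f : ℚ →+* R) (v : U7 R) : v ∈ uni (mapM f t2.h) (t2.sk_h.map f) ↔
    ∀ i j, a2 i - a2 j < 2 → (v.mat - 1) i j = 0 := by
  exact (uni_congr _ _ _ (mapM_dgM f a2) v).trans (mem_fil_diag f a2 2 _)

private theorem Bm_a1 : ∀ i j : Fin 7, 2 ≤ a1 j - a1 i → ((Bm i j : ℤ) : ℚ) = Mq1 i j := by
  intro i j h
  fin_cases i <;> fin_cases j <;> simp [Bm, Mq1, a1] at h ⊢

private theorem Bm_a2 : ∀ i j : Fin 7, 2 ≤ a2 j - a2 i → ((Bm i j : ℤ) : ℚ) = Mq2 i j := by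
  intro i j h
  fin_cases i <;> fin_cases j <;> simp [Bm, Mq2, a2] at h ⊢

private theorem compat_aux (a : Fin 7 → ℤ) (M : Matrix (Fin 7) (Fin 7) ℚ) (u : U7 ℚ_[p7])
    (hB : ∀ i j, 2 ≤ a j - a i → ((Bm i j : ℤ) : ℚ) = M i j)
    (hu : ∀ i j, a i - a j < 2 → (u.mat - 1) i j = 0) :
    (Matrix.trace (mapM (Rat.castHom ℚ_[p7]) (imM (1 / 49) M) * (u.mat - 1))).re +
      trB u / 7 = 0 := by
  rw [re_trace, trB, Finset.sum_div, ← Finset.sum_add_distrib]
  refine Finset.sum_eq_zero fun i _ => ?_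
  rw [Finset.sum_div, ← Finset.sum_add_distrib]
  refine Finset.sum_eq_zero fun j _ => ?_
  have him : ((u.mat - 1) j i).im = (u.mat j i).im := by
    rw [Matrix.sub_apply, QuadraticAlgebra.im_sub]
    have h1 : ((1 : M7 (E7 ℚ_[p7])) j i).im = 0 := by
      by_cases h : j = i
      · subst h
        rw [Matrix.one_apply_eq, QuadraticAlgebra.im_one]
      · rw [Matrix.one_apply_ne h, QuadraticAlgebra.im_zero]
    rw [h1, sub_zero]
  rw [← him]
  by_cases h : 2 ≤ a j - a i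
  · have h1 : ((Bm i j : ℤ) : ℚ_[p7]) = ((M i j : ℚ) : ℚ_[p7]) := by
      rw [← hB i j h]
      push_cast
      rfl
    rw [h1, eq_ratCast]
    push_cast
    ring
  · rw [hu j i (by omega), QuadraticAlgebra.im_zero]
    ring

theorem compat1 (u : U7 ℚ_[p7])
    (hu : u ∈ uni (mapM (Rat.castHom ℚ_[p7]) t1.h) (t1.sk_h.map _)) :
    (Matrix.trace (mapM (Rat.castHom ℚ_[p7]) t1.X * (u.mat - 1))).re + trB u / 7 = 0 := by
  exact compat_aux a1 Mq1 u Bm_a1 ((mem_V1 _ u).1 hu)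

theorem compat2 (u : U7 ℚ_[p7])
    (hu : u ∈ uni (mapM (Rat.castHom ℚ_[p7]) t2.h) (t2.sk_h.map _)) :
    (Matrix.trace (mapM (Rat.castHom ℚ_[p7]) t2.X * (u.mat - 1))).re + trB u / 7 = 0 := by
  exact compat_aux a2 Mq2 u Bm_a2 ((mem_V2 _ u).1 hu)

private theorem int_aux {p : Nat.Primes} (hp : p ≠ p7) (M : Matrix (Fin 7) (Fin 7) ℚ)
    (hM : ∀ i j, ∃ z : ℤ, M i j = z) (T : M7 (E7 ℚ_[p]))
    (hT : ∀ i j, ‖(T i j).re‖ ≤ 1 ∧ ‖(T i j).im‖ ≤ 1) :
    ‖(Matrix.trace (mapM (Rat.castHom ℚ_[p]) (imM (1 / 49) M) * T)).re‖ ≤ 1 := by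
  rw [re_trace]
  show _ ∈ (PadicInt.subring p : Subring ℚ_[p])
  refine Subring.sum_mem _ fun i _ => Subring.sum_mem _ fun j _ => ?_
  show ‖_‖ ≤ 1
  obtain ⟨z, hz⟩ := hM i j
  have h7 : ‖(7 : ℚ_[p])‖ = 1 := by
    have h1 : ‖((7 : ℕ) : ℚ_[p])‖ = 1 := by
      rw [Padic.norm_natCast_eq_one_iff, Nat.coprime_primes p.2 (by norm_num)]
      intro h
      exact hp (Subtype.ext h)
    simpa using h1
  have h1 : -7 * ((Rat.castHom ℚ_[p]) (1 / 49 * M i j) * (T j i).im) =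
      -((7 : ℚ_[p])⁻¹ * ((z : ℚ_[p]) * (T j i).im)) := by
    have h70 : (7 : ℚ_[p]) ≠ 0 := by
      intro h
      rw [h, norm_zero] at h7
      exact zero_ne_one h7
    rw [hz, eq_ratCast]
    push_cast
    have h49 : (49 : ℚ_[p]) = 7 * 7 := by norm_num
    rw [h49]
    field_simp
  rw [h1, norm_neg, norm_mul, norm_inv, h7, inv_one, one_mul, norm_mul]
  exact mul_le_one₀ (Padic.norm_int_le_one z) (norm_nonneg _) (hT j i).2

private theorem Mq1_int : ∀ i j : Fin 7, ∃ z : ℤ, Mq1 i j = z := by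
  intro i j
  fin_cases i <;> fin_cases j <;>
    first
      | (refine ⟨0, ?_⟩; simp [Mq1]; done)
      | (refine ⟨2, ?_⟩; simp [Mq1]; done)
      | (refine ⟨4, ?_⟩; simp [Mq1]; done)
      | (refine ⟨6, ?_⟩; simp [Mq1]; done)

private theorem Mq2_int : ∀ i j : Fin 7, ∃ z : ℤ, Mq2 i j = z := by
  intro i j
  fin_cases i <;> fin_cases j <;>
    first
      | (refine ⟨0, ?_⟩; simp [Mq2]; done)
      | (refine ⟨3, ?_⟩; simp [Mq2]; done)
      | (refine ⟨5, ?_⟩; simp [Mq2]; done)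
      | (refine ⟨6, ?_⟩; simp [Mq2]; done)

theorem int_X {p : Nat.Primes} (hp : p ≠ p7) (T : M7 (E7 ℚ_[p]))
    (hT : ∀ i j, ‖(T i j).re‖ ≤ 1 ∧ ‖(T i j).im‖ ≤ 1) :
    ‖(Matrix.trace (mapM (Rat.castHom ℚ_[p]) t1.X * T)).re‖ ≤ 1 ∧
      ‖(Matrix.trace (mapM (Rat.castHom ℚ_[p]) t2.X * T)).re‖ ≤ 1 := by
  exact ⟨int_aux hp Mq1 Mq1_int T hT, int_aux hp Mq2 Mq2_int T hT⟩

end Pool.Agent.MPabcfcd
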