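import Pool.Agent.Lib.MP_abcfcd_nt.Lgrp

/-!
# The two `sl₂`-triples

`X₁ = (√-7 / 49) M₁` is lower triangular of type `(5,1,1)` with the grading `(4,2,0,0,0,-2,-4)`,
`X₂ = (√-7 / 49) M₂` is upper triangular of type `(4,3)` with the grading `(-3,-2,-1,0,1,2,3)`.
`M₁` and
`M₂` are the parts of degree `-2` of the matrix `B` for these gradings, and `B` has no part of
degree
less than `-2`.

PROOF. All statements are identities between explicit matrices with entries in `E7 ℚ`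
(`QuadraticAlgebra ℚ (-7) 0`): `Matrix.ext`, `fin_cases` on both indices, and `simp`/`norm_num`; or
prove
first the identities between the rational matrices `M`, `E`, `H` by `decide`, `norm_num` or
`Matrix.of`-`simp` and use that `reM : Matrix ℚ → M7 (E7 ℚ)` is a ring homomorphism
(`mapM`-like, `algebraMap ℚ (E7 ℚ)`) and that `√-7 * √-7 = -7`: `E = -7 √-7 E'`, `X = (√-7/49) M`,
so
`[E, X] = -7 (√-7)²/49 [E', M] = [E', M]`.
-/

set_option autoImplicit false

open Matrix MeasureTheory Topology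
open scoped ENNReal NNReal ComplexConjugate RestrictedProduct

namespace Pool.Agent.MPabcfcd

/-- The grading for the type `(5,1,1)`. -/
def a1 : Fin 7 → ℤ := ![4, 2, 0, 0, 0, -2, -4]

/-- The grading for the type `(4,3)`. -/
def a2 : Fin 7 → ℤ := ![-3, -2, -1, 0, 1, 2, 3]

/-- The part of degree `-2` of `B` for the grading `a1`. -/
def Mq1 : Matrix (Fin 7) (Fin 7) ℚ :=
  !![0, 0, 0, 0, 0, 0, 0;
     2, 0, 0, 0, 0, 0, 0;
     0, 6, 0, 0, 0, 0, 0;
     0, 2, 0, 0, 0, 0, 0;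
     0, 4, 0, 0, 0, 0, 0;
     0, 0, 4, 2, 6, 0, 0;
     0, 0, 0, 0, 0, 2, 0]

/-- The part of degree `-2` of `B` for the grading `a2`. -/
def Mq2 : Matrix (Fin 7) (Fin 7) ℚ :=
  !![0, 0, 6, 0, 0, 0, 0;
     0, 0, 0, 5, 0, 0, 0;
     0, 0, 0, 0, 3, 0, 0;
     0, 0, 0, 0, 0, 5, 0;
     0, 0, 0, 0, 0, 0, 6;
     0, 0, 0, 0, 0, 0, 0;
     0, 0, 0, 0, 0, 0, 0]

/-- The matrix `E'` with `[E', M₁] = diag(a1)`. -/
def Eq1 : Matrix (Fin 7) (Fin 7) ℚ :=
  !![0, 2, 0, 0, 0, 0, 0;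
     0, 0, 6/13, 3/13, 9/13, 0, 0;
     0, 0, 0, 0, 0, 9/13, 0;
     0, 0, 0, 0, 0, 3/13, 0;
     0, 0, 0, 0, 0, 6/13, 0;
     0, 0, 0, 0, 0, 0, 2;
     0, 0, 0, 0, 0, 0, 0]

/-- The matrix `E'` with `[E', M₂] = diag(a2)`. -/
def Eq2 : Matrix (Fin 7) (Fin 7) ℚ :=
  !![0, 0, 0, 0, 0, 0, 0;
     0, 0, 0, 0, 0, 0, 0;
     1/2, 0, 0, 0, 0, 0, 0;
     0, 2/5, 0, 0, 0, 0, 0;
     0, 0, 4/3, 0, 0, 0, 0;
     0, 0, 0, 2/5, 0, 0, 0;
     0, 0, 0, 0, 1/2, 0, 0]

/-- The matrix `√-7 c A` of a rational matrix `A`. -/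
def imM (c : ℚ) (A : Matrix (Fin 7) (Fin 7) ℚ) : M7 (E7 ℚ) :=
  Matrix.of fun i j => ⟨0, c * A i j⟩

/-- The diagonal matrix of a grading. -/
def dgM (a : Fin 7 → ℤ) : M7 (E7 ℚ) := Matrix.diagonal fun i => ((a i : ℤ) : E7 ℚ)

private theorem defs_sk {Z : M7 (E7 ℚ)} (h : ∀ i j, star (Z j.rev i) + Z i.rev j = 0) :
    Sk Z := by
  refine Matrix.ext fun i j => ?_
  rw [Matrix.add_apply, Matrix.mul_apply, Matrix.mul_apply, Finset.sum_eq_single j.rev,
    Finset.sum_eq_single i.rev, Matrix.conjTranspose_apply]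
  · have h1 : J7 (E7 ℚ) j.rev j = 1 := by
      unfold J7
      rw [Matrix.of_apply, if_pos (Fin.rev_rev j).symm]
    have h2 : J7 (E7 ℚ) i i.rev = 1 := by
      unfold J7
      rw [Matrix.of_apply, if_pos rfl]
    rw [h1, h2, mul_one, one_mul]
    exact h i j
  · intro k _ hk
    have h1 : J7 (E7 ℚ) i k = 0 := by
      unfold J7
      rw [Matrix.of_apply, if_neg hk]
    rw [h1, zero_mul]
  · intro hk
    exact absurd (Finset.mem_univ _) hk
  · intro k _ hk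
    have h1 : J7 (E7 ℚ) k j = 0 := by
      unfold J7
      rw [Matrix.of_apply, if_neg]
      rintro rfl
      exact hk (Fin.rev_rev k).symm
    rw [h1, mul_zero]
  · intro hk
    exact absurd (Finset.mem_univ _) hk

private theorem defs_imM_sk {c : ℚ} {A : Matrix (Fin 7) (Fin 7) ℚ}
    (h : ∀ i j : Fin 7, A j.rev i = A i.rev j) : Sk (imM c A) := by
  refine defs_sk fun i j => ?_
  unfold imM
  rw [Matrix.of_apply, Matrix.of_apply, h i j]
  refine QuadraticAlgebra.ext ?_ ?_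
  · simp
  · simp

private theorem defs_dgM_sk {a : Fin 7 → ℤ} (h : ∀ i : Fin 7, a i + a i.rev = 0) :
    Sk (dgM a) := by
  refine defs_sk fun i j => ?_
  unfold dgM
  rw [Matrix.diagonal_apply, Matrix.diagonal_apply]
  by_cases hij : i.rev = j
  · subst hij
    rw [Fin.rev_rev, if_pos rfl, if_pos rfl]
    have h1 : ((a i : ℤ) : E7 ℚ) + ((a i.rev : ℤ) : E7 ℚ) = 0 := by
      rw [← Int.cast_add, h, Int.cast_zero]
    rw [star_intCast]
    exact h1
  · rw [if_neg hij, if_neg, star_zero, add_zero]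
    intro h1
    apply hij
    rw [← h1, Fin.rev_rev]

private theorem defs_dg {a : Fin 7 → ℤ} {c : ℚ} {A : Matrix (Fin 7) (Fin 7) ℚ} (e : ℤ)
    (h : ∀ i j : Fin 7, ((a i : ℚ) - a j - e) * A i j = 0) :
    dgM a * imM c A - imM c A * dgM a = e • imM c A := by
  refine Matrix.ext fun i j => ?_
  unfold dgM imM
  rw [Matrix.sub_apply, Matrix.diagonal_mul, Matrix.mul_diagonal, Matrix.smul_apply,
    Matrix.of_apply]
  have h1 := h i j
  refine QuadraticAlgebra.ext ?_ ?_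
  · simp
  · simp
    linear_combination c * h1

private theorem defs_mul {a : Fin 7 → ℤ} {A B : Matrix (Fin 7) (Fin 7) ℚ}
    (h : A * B - B * A = Matrix.diagonal fun i => (a i : ℚ)) :
    imM (-7) A * imM (1 / 49) B - imM (1 / 49) B * imM (-7) A = dgM a := by
  have h1 : ∀ (c d : ℚ) (A B : Matrix (Fin 7) (Fin 7) ℚ) (i j : Fin 7),
      (imM c A * imM d B) i j = (⟨-7 * c * d * (A * B) i j, 0⟩ : E7 ℚ) := by
    intro c d A B i j
    have h2 : ∀ k : Fin 7, imM c A i k * imM d B k j =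
        (⟨-7 * c * d * (A i k * B k j), 0⟩ : E7 ℚ) := by
      intro k
      unfold imM
      rw [Matrix.of_apply, Matrix.of_apply]
      refine QuadraticAlgebra.ext ?_ ?_
      · simp
        ring
      · simp
    rw [Matrix.mul_apply, Finset.sum_congr rfl fun k _ => h2 k, Matrix.mul_apply]
    simp only [Fin.sum_univ_succ, Fin.sum_univ_zero]
    refine QuadraticAlgebra.ext ?_ ?_
    · simp
      ring
    · simp
  refine Matrix.ext fun i j => ?_
  have h2 := congrFun (congrFun h i) j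
  rw [Matrix.sub_apply, Matrix.diagonal_apply] at h2
  rw [Matrix.sub_apply, h1, h1]
  unfold dgM
  rw [Matrix.diagonal_apply]
  by_cases hij : i = j
  · rw [if_pos hij] at h2 ⊢
    refine QuadraticAlgebra.ext ?_ ?_
    · simp
      linear_combination h2
    · simp
  · rw [if_neg hij] at h2 ⊢
    refine QuadraticAlgebra.ext ?_ ?_
    · simp
      linear_combination h2
    · simp

theorem t1_sk : Sk (imM (-7) Eq1) ∧ Sk (dgM a1) ∧ Sk (imM (1 / 49) Mq1) := by
  refine ⟨defs_imM_sk fun i j => ?_, defs_dgM_sk fun i => ?_, defs_imM_sk fun i j => ?_⟩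
  · fin_cases i <;> fin_cases j <;> rfl
  · fin_cases i <;> rfl
  · fin_cases i <;> fin_cases j <;> rfl

theorem t1_rel : dgM a1 * imM (-7) Eq1 - imM (-7) Eq1 * dgM a1 = 2 • imM (-7) Eq1 ∧
    dgM a1 * imM (1 / 49) Mq1 - imM (1 / 49) Mq1 * dgM a1 = -(2 • imM (1 / 49) Mq1) ∧
    imM (-7) Eq1 * imM (1 / 49) Mq1 - imM (1 / 49) Mq1 * imM (-7) Eq1 = dgM a1 := by
  refine ⟨?_, ?_, defs_mul ?_⟩
  · refine (defs_dg (c := -7) (A := Eq1) (a := a1) 2 fun i j => ?_).trans ?_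
    · fin_cases i <;> fin_cases j <;> norm_num [Eq1, a1]
    · norm_cast
  · refine (defs_dg (c := 1 / 49) (A := Mq1) (a := a1) (-2) fun i j => ?_).trans ?_
    · fin_cases i <;> fin_cases j <;> norm_num [Mq1, a1]
    · rw [neg_smul]
      norm_cast
  · ext i j
    fin_cases i <;> fin_cases j <;>
      norm_num [Eq1, Mq1, a1, Matrix.mul_apply, Fin.sum_univ_succ]

theorem t2_sk : Sk (imM (-7) Eq2) ∧ Sk (dgM a2) ∧ Sk (imM (1 / 49) Mq2) := by
  refine ⟨defs_imM_sk fun i j => ?_, defs_dgM_sk fun i => ?_, defs_imM_sk fun i j => ?_⟩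
  · fin_cases i <;> fin_cases j <;> rfl
  · fin_cases i <;> rfl
  · fin_cases i <;> fin_cases j <;> rfl

theorem t2_rel : dgM a2 * imM (-7) Eq2 - imM (-7) Eq2 * dgM a2 = 2 • imM (-7) Eq2 ∧
    dgM a2 * imM (1 / 49) Mq2 - imM (1 / 49) Mq2 * dgM a2 = -(2 • imM (1 / 49) Mq2) ∧
    imM (-7) Eq2 * imM (1 / 49) Mq2 - imM (1 / 49) Mq2 * imM (-7) Eq2 = dgM a2 := by
  refine ⟨?_, ?_, defs_mul ?_⟩
  · refine (defs_dg (c := -7) (A := Eq2) (a := a2) 2 fun i j => ?_).trans ?_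
    · fin_cases i <;> fin_cases j <;> norm_num [Eq2, a2]
    · norm_cast
  · refine (defs_dg (c := 1 / 49) (A := Mq2) (a := a2) (-2) fun i j => ?_).trans ?_
    · fin_cases i <;> fin_cases j <;> norm_num [Mq2, a2]
    · rw [neg_smul]
      norm_cast
  · ext i j
    fin_cases i <;> fin_cases j <;>
      norm_num [Eq2, Mq2, a2, Matrix.mul_apply, Fin.sum_univ_succ]

/-- The triple of type `(5,1,1)`. -/
def t1 : Sl2 where
  e := imM (-7) Eq1
  h := dgM a1
  X := imM (1 / 49) Mq1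
  sk_e := t1_sk.1
  sk_h := t1_sk.2.1
  sk_X := t1_sk.2.2
  h_e := t1_rel.1
  h_X := t1_rel.2.1
  e_X := t1_rel.2.2

/-- The triple of type `(4,3)`. -/
def t2 : Sl2 where
  e := imM (-7) Eq2
  h := dgM a2
  X := imM (1 / 49) Mq2
  sk_e := t2_sk.1
  sk_h := t2_sk.2.1
  sk_X := t2_sk.2.2
  h_e := t2_rel.1
  h_X := t2_rel.2.1
  e_X := t2_rel.2.2

end Pool.Agent.MPabcfcd
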